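import Mathlib

/-!
# Spheres with many lattice points in dimensions three and four
-/

set_option autoImplicit false
set_option linter.style.haveILetI false

open Finset

namespace Pool.Agent.W796.QL

/-- number of solutions of `∑ x_i² = a` in a finite ring -/
noncomputable def cnt (R : Type) [CommRing R] [Fintype R] [DecidableEq R] (D : ℕ) (a : R) : ℕ :=
  (univ.filter (fun x : Fin D → R => ∑ i, x i ^ 2 = a)).card

section local_

variable {R : Type} [CommRing R] [Fintype R] [DecidableEq R]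

theorem cnt_succ (D : ℕ) (a : R) : cnt R (D + 1) a = ∑ z : R, cnt R D (a - z ^ 2) := by
  unfold cnt
  rw [← card_sigma]
  refine card_nbij' (fun x => ⟨x 0, fun i => x i.succ⟩) (fun p => Fin.cons p.1 p.2) ?_ ?_ ?_ ?_
  · intro x hx
    simp only [coe_filter, mem_univ, true_and, Set.mem_ofPred_eq] at hx
    simp only [coe_sigma, Set.mem_sigma_iff, mem_coe, mem_univ, true_and, mem_filter]
    rw [Fin.sum_univ_succ] at hx
    rw [← hx]; ring
  · rintro ⟨z, y⟩ hx
    simp only [coe_sigma, Set.mem_sigma_iff, mem_coe, mem_univ, true_and, mem_filter] at hx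
    simp only [coe_filter, mem_univ, true_and, Set.mem_ofPred_eq]
    rw [Fin.sum_univ_succ]
    simp only [Fin.cons_zero, Fin.cons_succ]
    rw [hx]; ring
  · intro x _
    funext i
    refine Fin.cases ?_ (fun j => ?_) i <;> simp
  · rintro ⟨z, y⟩ _
    simp

theorem cnt_zero (a : R) : cnt R 0 a = if a = 0 then 1 else 0 := by
  unfold cnt
  simp only [univ_eq_empty, sum_empty]
  split_ifs with h
  · subst h
    simp
  · rw [card_eq_zero, filter_eq_empty_iff]
    intro x _ h0
    exact h h0.symm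

theorem cnt_one (a : R) : cnt R 1 a = (univ.filter (fun x : R => x ^ 2 = a)).card := by
  rw [cnt_succ]
  simp only [cnt_zero]
  rw [card_filter]
  refine sum_congr rfl (fun z _ => ?_)
  by_cases h : z ^ 2 = a
  · simp [h]
  · have : a - z ^ 2 ≠ 0 := fun h' => h (sub_eq_zero.1 h').symm
    simp [h, this]

/-- counting in products -/
theorem cnt_prod {S : Type} [CommRing S] [Fintype S] [DecidableEq S] (D : ℕ) (a : R) (b : S) :
    cnt (R × S) D (a, b) = cnt R D a * cnt S D b := by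
  unfold cnt
  rw [← card_product]
  refine card_nbij' (fun x => (fun i => (x i).1, fun i => (x i).2)) (fun p i => (p.1 i, p.2 i))
    ?_ ?_ ?_ ?_
  · intro x hx
    simp only [coe_filter, mem_univ, true_and, Set.mem_ofPred_eq] at hx
    simp only [coe_product, coe_filter, mem_univ, true_and, Set.mem_prod, Set.mem_ofPred_eq]
    have h1 := congrArg Prod.fst hx
    have h2 := congrArg Prod.snd hx
    rw [Prod.fst_sum] at h1
    rw [Prod.snd_sum] at h2
    exact ⟨by simpa using h1, by simpa using h2⟩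
  · rintro ⟨x, y⟩ hx
    simp only [coe_product, coe_filter, mem_univ, true_and, Set.mem_prod, Set.mem_ofPred_eq] at hx
    simp only [coe_filter, mem_univ, true_and, Set.mem_ofPred_eq]
    refine Prod.ext ?_ ?_
    · rw [Prod.fst_sum]; simpa using hx.1
    · rw [Prod.snd_sum]; simpa using hx.2
  · intro x _
    rfl
  · rintro ⟨x, y⟩ _
    rfl

theorem cnt_equiv {S : Type} [CommRing S] [Fintype S] [DecidableEq S] (e : R ≃+* S) (D : ℕ)
    (a : R) : cnt S D (e a) = cnt R D a := by
  unfold cnt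
  symm
  refine card_nbij' (fun x i => e (x i)) (fun y i => e.symm (y i)) ?_ ?_ ?_ ?_
  · intro x hx
    simp only [coe_filter, mem_univ, true_and, Set.mem_ofPred_eq] at hx ⊢
    rw [← hx, map_sum]
    simp
  · intro x hx
    simp only [coe_filter, mem_univ, true_and, Set.mem_ofPred_eq] at hx ⊢
    apply e.injective
    rw [← hx, map_sum]
    simp
  · intro x _
    funext i; simp
  · intro x _
    funext i; simp

end local_

section field

variable {p : ℕ} [hp : Fact p.Prime]

/-- the quadratic character sum -/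
theorem sum_sq_eq (hp2 : p ≠ 2) (f : ZMod p → ℤ) :
    ∑ z : ZMod p, f (z ^ 2) = ∑ u : ZMod p, (quadraticChar (ZMod p) u + 1) * f u := by
  have h1 : ∀ u : ZMod p, (quadraticChar (ZMod p) u + 1) =
      ((univ.filter (fun x : ZMod p => x ^ 2 = u)).card : ℤ) := by
    intro u
    have := quadraticChar_card_sqrts (F := ZMod p) (by rwa [ZMod.ringChar_zmod_n]) u
    rw [← this]
    congr 2
    ext x
    simp
  rw [← Finset.sum_fiberwise (s := univ) (g := fun z : ZMod p => z ^ 2) (f := fun z => f (z ^ 2))]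
  refine sum_congr rfl (fun u _ => ?_)
  rw [h1 u]
  rw [Finset.sum_congr rfl (g := fun _ => f u)]
  · simp
  · intro x hx
    simp only [mem_filter, mem_univ, true_and] at hx
    rw [hx]

theorem qc_ne_one (hp2 : p ≠ 2) : quadraticChar (ZMod p) ≠ 1 :=
  quadraticChar_ne_one (by rwa [ZMod.ringChar_zmod_n])

theorem sum_qc (hp2 : p ≠ 2) : ∑ u : ZMod p, quadraticChar (ZMod p) u = 0 :=
  MulChar.sum_eq_zero_of_ne_one (qc_ne_one hp2)

theorem sum_qc_sub (hp2 : p ≠ 2) (a : ZMod p) :
    ∑ u : ZMod p, quadraticChar (ZMod p) (a - u) = 0 := by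
  rw [← sum_qc hp2]
  exact Fintype.sum_equiv (Equiv.subLeft a) _ _ (fun u => rfl)

/-- the convolution of the quadratic character with itself -/
theorem conv_qc (hp2 : p ≠ 2) (b : ZMod p) :
    ∑ u : ZMod p, quadraticChar (ZMod p) u * quadraticChar (ZMod p) (b - u) =
      quadraticChar (ZMod p) (-1) * ((if b = 0 then (p : ℤ) else 0) - 1) := by
  have hcard : Fintype.card (ZMod p) = p := ZMod.card p
  split_ifs with h
  · subst h
    have h1 : ∀ u : ZMod p, quadraticChar (ZMod p) u * quadraticChar (ZMod p) (0 - u) =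
        quadraticChar (ZMod p) (-1) * (if u = 0 then 0 else 1) := by
      intro u
      have : (0 : ZMod p) - u = (-1) * u := by ring
      rw [this, map_mul]
      split_ifs with hu
      · subst hu; simp
      · have h2 := quadraticChar_sq_one hu
        calc quadraticChar (ZMod p) u * (quadraticChar (ZMod p) (-1) * quadraticChar (ZMod p) u)
            = quadraticChar (ZMod p) (-1) * (quadraticChar (ZMod p) u ^ 2) := by ring
          _ = _ := by rw [h2]
    rw [sum_congr rfl (fun u _ => h1 u), ← mul_sum]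
    congr 1
    have h3 : ∀ u : ZMod p, (if u = 0 then (0 : ℤ) else 1) = 1 - (if u = 0 then 1 else 0) := by
      intro u; split_ifs <;> simp
    rw [sum_congr rfl (fun u _ => h3 u), sum_sub_distrib]
    simp [hcard]
  · have h1 : ∑ u : ZMod p, quadraticChar (ZMod p) u * quadraticChar (ZMod p) (b - u) =
        ∑ v : ZMod p, quadraticChar (ZMod p) v * quadraticChar (ZMod p) (1 - v) := by
      refine (Fintype.sum_equiv (Equiv.mulLeft₀ b h) _ _ (fun v => ?_)).symm
      change quadraticChar (ZMod p) v * quadraticChar (ZMod p) (1 - v) =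
        quadraticChar (ZMod p) (b * v) * quadraticChar (ZMod p) (b - b * v)
      have h2 : b - b * v = b * (1 - v) := by ring
      rw [h2, map_mul, map_mul]
      have h3 := quadraticChar_sq_one h
      calc quadraticChar (ZMod p) v * quadraticChar (ZMod p) (1 - v)
          = (quadraticChar (ZMod p) b ^ 2) *
            (quadraticChar (ZMod p) v * quadraticChar (ZMod p) (1 - v)) := by rw [h3, one_mul]
        _ = _ := by ring
    rw [h1]
    have h2 := jacobiSum_nontrivial_inv (F := ZMod p) (R := ℤ) (qc_ne_one hp2)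
    have h3 : (quadraticChar (ZMod p))⁻¹ = quadraticChar (ZMod p) := by
      exact (quadraticChar_isQuadratic (ZMod p)).inv
    rw [h3] at h2
    rw [jacobiSum] at h2
    rw [h2]
    ring

theorem cnt1 (hp2 : p ≠ 2) (a : ZMod p) : (cnt (ZMod p) 1 a : ℤ) = quadraticChar (ZMod p) a + 1 := by
  rw [cnt_one]
  have := quadraticChar_card_sqrts (F := ZMod p) (by rwa [ZMod.ringChar_zmod_n]) a
  rw [← this]
  congr 2
  ext x
  simp

theorem cnt2 (hp2 : p ≠ 2) (a : ZMod p) : (cnt (ZMod p) 2 a : ℤ) =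
    p + quadraticChar (ZMod p) (-1) * ((if a = 0 then (p : ℤ) else 0) - 1) := by
  rw [cnt_succ]
  push_cast
  simp only [cnt1 hp2]
  rw [sum_sq_eq hp2 (fun w => quadraticChar (ZMod p) (a - w) + 1)]
  have : ∀ u : ZMod p, (quadraticChar (ZMod p) u + 1) * (quadraticChar (ZMod p) (a - u) + 1) =
      quadraticChar (ZMod p) u * quadraticChar (ZMod p) (a - u) + quadraticChar (ZMod p) u +
        quadraticChar (ZMod p) (a - u) + 1 := fun u => by ring
  rw [sum_congr rfl (fun u _ => this u), sum_add_distrib, sum_add_distrib, sum_add_distrib,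
    conv_qc hp2, sum_qc hp2, sum_qc_sub hp2]
  simp [ZMod.card p]
  ring

theorem cnt3 (hp2 : p ≠ 2) (a : ZMod p) : (cnt (ZMod p) 3 a : ℤ) =
    p ^ 2 + quadraticChar (ZMod p) (-a) * p := by
  rw [cnt_succ]
  push_cast
  simp only [cnt2 hp2]
  have h1 : ∀ z : ZMod p, (p : ℤ) + quadraticChar (ZMod p) (-1) *
      ((if a - z ^ 2 = 0 then (p : ℤ) else 0) - 1) =
      (p - quadraticChar (ZMod p) (-1)) + quadraticChar (ZMod p) (-1) * p *
        (if z ^ 2 = a then 1 else 0) := by
    intro z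
    by_cases h : z ^ 2 = a
    · have : a - z ^ 2 = 0 := by rw [h]; ring
      rw [if_pos this, if_pos h]; ring
    · have : a - z ^ 2 ≠ 0 := fun h' => h (sub_eq_zero.1 h').symm
      rw [if_neg this, if_neg h]; ring
  rw [sum_congr rfl (fun z _ => h1 z), sum_add_distrib, ← mul_sum]
  have h2 : ∑ z : ZMod p, (if z ^ 2 = a then (1 : ℤ) else 0) = quadraticChar (ZMod p) a + 1 := by
    rw [← cnt1 hp2, cnt_one, card_filter]
    push_cast
    rfl
  rw [h2]
  have h3 : quadraticChar (ZMod p) (-a) = quadraticChar (ZMod p) (-1) * quadraticChar (ZMod p) a := by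
    rw [← map_mul]; congr 1; ring
  rw [h3]
  simp [ZMod.card p]
  ring

theorem cnt4 (hp2 : p ≠ 2) : (cnt (ZMod p) 4 0 : ℤ) = p ^ 3 + p ^ 2 - p := by
  rw [cnt_succ]
  push_cast
  simp only [cnt3 hp2]
  have h1 : ∀ z : ZMod p, (p : ℤ) ^ 2 + quadraticChar (ZMod p) (-(0 - z ^ 2)) * p =
      p ^ 2 + p * (1 - (if z = 0 then 1 else 0)) := by
    intro z
    have : -(0 - z ^ 2) = z * z := by ring
    rw [this, map_mul]
    by_cases h : z = 0
    · subst h; simp
    · rw [if_neg h]
      have h2 := quadraticChar_sq_one h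
      rw [sq] at h2
      rw [h2]; ring
  rw [sum_congr rfl (fun z _ => h1 z), sum_add_distrib, ← mul_sum, sum_sub_distrib]
  simp [ZMod.card p]
  ring

end field

/-- local factor times the expected number -/
theorem local_ge {p : ℕ} [hp : Fact p.Prime] (hp2 : p ≠ 2) :
    ((p : ℝ) ^ 2 * (1 + 1 / (2 * p)) ≤ cnt (ZMod p) 3 (-1)) ∧
    ((p : ℝ) ^ 3 * (1 + 1 / (2 * p)) ≤ cnt (ZMod p) 4 0) := by
  have hp3 : (2 : ℝ) ≤ p := by exact_mod_cast hp.out.two_le
  have hp0 : (0 : ℝ) < p := by linarith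
  constructor
  · have h := cnt3 hp2 (-1 : ZMod p)
    rw [neg_neg, map_one, one_mul] at h
    have h' : ((cnt (ZMod p) 3 (-1) : ℕ) : ℝ) = (p : ℝ) ^ 2 + p := by exact_mod_cast h
    rw [h']
    have : (p : ℝ) ^ 2 * (1 + 1 / (2 * p)) = p ^ 2 + p / 2 := by field_simp
    rw [this]; linarith
  · have h := cnt4 (p := p) hp2
    have h' : ((cnt (ZMod p) 4 0 : ℕ) : ℝ) = (p : ℝ) ^ 3 + p ^ 2 - p := by exact_mod_cast h
    rw [h']
    have : (p : ℝ) ^ 3 * (1 + 1 / (2 * p)) = p ^ 3 + p ^ 2 / 2 := by field_simp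
    rw [this]; nlinarith

/-- the residue class: `-1` in dimension three and `0` in dimension four -/
def cls (D : ℕ) : ℤ := if D = 3 then -1 else 0

theorem local_ge' {p : ℕ} (hp : p.Prime) (hp2 : p ≠ 2) {D : ℕ} (hD : D = 3 ∨ D = 4) [NeZero p] :
    (p : ℝ) ^ (D - 1) * (1 + 1 / (2 * p)) ≤ cnt (ZMod p) D ((cls D : ℤ) : ZMod p) := by
  have : Fact p.Prime := ⟨hp⟩
  have h := local_ge (p := p) hp2
  rcases hD with rfl | rfl
  · have h1 := h.1
    unfold cls
    simp only [if_true, Int.cast_neg, Int.cast_one]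
    convert h1 using 2
  · have h1 := h.2
    unfold cls
    norm_num
    norm_num at h1
    convert h1 using 2

/-- the number of solutions modulo a natural number, as a plain function of the modulus -/
noncomputable def cm (D : ℕ) (a : ℤ) (m : ℕ) : ℕ :=
  if h : m = 0 then 0 else have : NeZero m := ⟨h⟩; cnt (ZMod m) D (a : ZMod m)

theorem cm_eq (D : ℕ) (a : ℤ) (m : ℕ) [h : NeZero m] : cm D a m = cnt (ZMod m) D (a : ZMod m) := by
  unfold cm
  rw [dif_neg h.out]

theorem cm_one (D : ℕ) (a : ℤ) : cm D a 1 = 1 := by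
  rw [cm_eq]
  unfold cnt
  have : (univ.filter (fun x : Fin D → ZMod 1 => ∑ i, x i ^ 2 = (a : ZMod 1))) = {0} := by
    ext x
    simp only [mem_filter, mem_univ, true_and, mem_singleton]
    exact ⟨fun _ => Subsingleton.elim _ _, fun _ => Subsingleton.elim _ _⟩
  rw [this, card_singleton]

theorem cm_mul (D : ℕ) (a : ℤ) {m n : ℕ} (hm : m ≠ 0) (hn : n ≠ 0) (h : m.Coprime n) :
    cm D a (m * n) = cm D a m * cm D a n := by
  have : NeZero m := ⟨hm⟩
  have : NeZero n := ⟨hn⟩
  have : NeZero (m * n) := ⟨mul_ne_zero hm hn⟩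
  rw [cm_eq, cm_eq, cm_eq, ← cnt_prod, ← cnt_equiv (ZMod.chineseRemainder h)]
  congr 1
  rw [map_intCast]
  rfl

theorem cm_prod (D : ℕ) (hD : D = 3 ∨ D = 4) (P : Finset ℕ) (hP : ∀ p ∈ P, p.Prime ∧ p ≠ 2) :
    ((∏ p ∈ P, p : ℕ) : ℝ) ^ (D - 1) * ∏ p ∈ P, (1 + 1 / (2 * (p : ℝ))) ≤
      cm D (cls D) (∏ p ∈ P, p) := by
  classical
  induction P using Finset.induction_on with
  | empty => simp [cm_one]
  | insert p P hpP ih =>
    have ih' := ih (fun q hq => hP q (mem_insert_of_mem hq))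
    have hp := hP p (mem_insert_self _ _)
    rw [prod_insert hpP, prod_insert hpP]
    have hp0 : p ≠ 0 := hp.1.ne_zero
    have hQ0 : (∏ p ∈ P, p) ≠ 0 :=
      prod_ne_zero_iff.2 (fun q hq => (hP q (mem_insert_of_mem hq)).1.ne_zero)
    have hco : p.Coprime (∏ p ∈ P, p) := by
      apply Nat.Coprime.prod_right
      intro q hq
      rw [Nat.coprime_primes hp.1 (hP q (mem_insert_of_mem hq)).1]
      rintro rfl
      exact hpP hq
    rw [cm_mul D _ hp0 hQ0 hco]
    push_cast
    have : NeZero p := ⟨hp0⟩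
    have h1 := local_ge' hp.1 hp.2 hD
    rw [← cm_eq] at h1
    push_cast at ih'
    calc ((p : ℝ) * ∏ x ∈ P, (x : ℝ)) ^ (D - 1) * ((1 + 1 / (2 * (p : ℝ))) *
          ∏ x ∈ P, (1 + 1 / (2 * (x : ℝ))))
        = ((p : ℝ) ^ (D - 1) * (1 + 1 / (2 * p))) * ((∏ x ∈ P, (x : ℝ)) ^ (D - 1) *
          ∏ x ∈ P, (1 + 1 / (2 * (x : ℝ)))) := by rw [mul_pow]; ring
      _ ≤ _ := by
        apply mul_le_mul h1 ih'
        · positivity
        · positivity

/-- the product of `1 + 1/(2p)` over odd primes diverges -/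
theorem exists_primes (K : ℝ) : ∃ P : Finset ℕ, (∀ p ∈ P, p.Prime ∧ p ≠ 2) ∧
    K ≤ ∏ p ∈ P, (1 + 1 / (2 * (p : ℝ))) := by
  classical
  have h0 : ∀ n : ℕ, 0 ≤ Set.indicator {p : ℕ | p.Prime} (fun n : ℕ => (1 : ℝ) / n) n := by
    intro n
    apply Set.indicator_nonneg
    intro x _
    positivity
  have h1 := not_summable_one_div_on_primes
  rw [not_summable_iff_tendsto_nat_atTop_of_nonneg h0] at h1
  obtain ⟨n, hn⟩ := (h1.eventually_ge_atTop (2 * K + 1)).exists
  refine ⟨((range n).filter Nat.Prime).erase 2, ?_, ?_⟩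
  · intro p hp
    simp only [mem_erase, mem_filter] at hp
    exact ⟨hp.2.2, hp.1⟩
  · have h2 : ∑ i ∈ range n, Set.indicator {p : ℕ | p.Prime} (fun n : ℕ => (1 : ℝ) / n) i =
        ∑ i ∈ (range n).filter Nat.Prime, (1 : ℝ) / i := by
      rw [sum_filter]
      refine sum_congr rfl (fun i _ => ?_)
      simp [Set.indicator]
    rw [h2] at hn
    have h3 : ∑ i ∈ (range n).filter Nat.Prime, (1 : ℝ) / i ≤
        ∑ i ∈ ((range n).filter Nat.Prime).erase 2, (1 : ℝ) / i + 1 := by
      by_cases h : 2 ∈ (range n).filter Nat.Prime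
      · rw [← add_sum_erase _ _ h]
        norm_num
        linarith
      · rw [erase_eq_of_notMem h]
        linarith
    have h4 : ∀ S : Finset ℕ, 1 + ∑ i ∈ S, (1 / (2 * (i : ℝ))) ≤ ∏ i ∈ S, (1 + 1 / (2 * (i : ℝ))) := by
      intro S
      induction S using Finset.induction_on with
      | empty => simp
      | insert a S ha ih =>
        rw [sum_insert ha, prod_insert ha]
        have h5 : 0 ≤ ∑ i ∈ S, (1 / (2 * (i : ℝ))) := sum_nonneg (fun i _ => by positivity)
        have h6 : 0 ≤ 1 / (2 * (a : ℝ)) := by positivity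
        nlinarith
    refine le_trans ?_ (h4 _)
    have h5 : ∑ i ∈ ((range n).filter Nat.Prime).erase 2, (1 / (2 * (i : ℝ))) =
        (1 / 2) * ∑ i ∈ ((range n).filter Nat.Prime).erase 2, (1 : ℝ) / i := by
      rw [mul_sum]
      refine sum_congr rfl (fun i _ => ?_)
      rw [one_div_mul_one_div]
    rw [h5]
    linarith

/-- integer vectors of squared length `n` -/
noncomputable def Sph (D n : ℕ) : Finset (Fin D → ℤ) :=
  (Fintype.piFinset (fun _ : Fin D => Icc (-(n : ℤ)) n)).filter (fun k => ∑ i, k i ^ 2 = (n : ℤ))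

theorem mem_Sph {D n : ℕ} (k : Fin D → ℤ) : k ∈ Sph D n ↔ ∑ i, k i ^ 2 = (n : ℤ) := by
  unfold Sph
  rw [mem_filter, Fintype.mem_piFinset]
  refine ⟨fun h => h.2, fun h => ⟨fun i => ?_, h⟩⟩
  have h3 : (k i) ^ 2 ≤ ∑ j, k j ^ 2 :=
    single_le_sum (f := fun j => k j ^ 2) (fun j _ => sq_nonneg _) (mem_univ i)
  rw [h] at h3
  have h4 : |k i| ≤ k i ^ 2 := by
    rw [← sq_abs (k i)]
    rcases (abs_nonneg (k i)).eq_or_lt with h0 | h0
    · rw [← h0]; norm_num
    · nlinarith
  rw [mem_Icc]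
  exact abs_le.1 (h4.trans h3)

/-- pigeonhole -/
theorem exists_rich_aux (D : ℕ) (hD : D = 3 ∨ D = 4) (a : ℤ) (Q : ℕ) (hQ : Q ≠ 0) :
    ∃ n : ℕ, n ≤ D * Q ^ 2 ∧ (cm D a Q : ℝ) ≤ (D * Q : ℕ) * (Sph D n).card := by
  classical
  have : NeZero Q := ⟨hQ⟩
  have hQ0 : 0 < Q := Nat.pos_of_ne_zero hQ
  rw [cm_eq]
  unfold cnt
  obtain ⟨s, hs⟩ : ∃ s, s = univ.filter (fun x : Fin D → ZMod Q => ∑ i, x i ^ 2 = (a : ZMod Q)) :=
    ⟨_, rfl⟩
  rw [← hs]
  obtain ⟨t, ht⟩ : ∃ t, t = (range (D * Q ^ 2)).filter (fun v : ℕ => ((v : ℕ) : ZMod Q) = (a : ZMod Q)) :=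
    ⟨_, rfl⟩
  have hf : ∀ x ∈ s, (∑ i, (x i).val ^ 2) ∈ t := by
    intro x hx
    rw [hs, mem_filter] at hx
    rw [ht, mem_filter, mem_range]
    constructor
    · have h1 : ∀ i, (x i).val ^ 2 < Q ^ 2 := fun i =>
        Nat.pow_lt_pow_left (ZMod.val_lt _) (by norm_num)
      have hne : (univ : Finset (Fin D)).Nonempty := by
        rcases hD with rfl | rfl <;> exact univ_nonempty
      calc ∑ i, (x i).val ^ 2 < ∑ _i : Fin D, Q ^ 2 := sum_lt_sum_of_nonempty hne (fun i _ => h1 i)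
        _ = D * Q ^ 2 := by simp
    · push_cast
      rw [← hx.2]
      exact sum_congr rfl (fun i _ => by rw [ZMod.natCast_zmod_val])
  by_cases hse : s.Nonempty
  swap
  · rw [not_nonempty_iff_eq_empty] at hse
    refine ⟨0, by positivity, ?_⟩
    rw [hse]
    simp
    positivity
  have hte : t.Nonempty := by
    obtain ⟨x, hx⟩ := hse
    exact ⟨_, hf x hx⟩
  have htc : t.card ≤ D * Q := by
    have : t.card ≤ (range (D * Q)).card := by
      refine card_le_card_of_injOn (fun v => v / Q) ?_ ?_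
      · intro v hv
        rw [ht] at hv
        simp only [coe_filter, mem_range, Set.mem_ofPred_eq] at hv
        simp only [coe_range, Set.mem_Iio]
        rw [Nat.div_lt_iff_lt_mul hQ0]
        calc v < D * Q ^ 2 := hv.1
          _ = D * Q * Q := by ring
      · intro v hv w hw hvw
        rw [ht] at hv hw
        simp only [coe_filter, mem_range, Set.mem_ofPred_eq] at hv hw
        have h1 : (v : ZMod Q) = (w : ZMod Q) := hv.2.trans hw.2.symm
        rw [ZMod.natCast_eq_natCast_iff'] at h1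
        have h2 : v / Q = w / Q := hvw
        rw [← Nat.div_add_mod v Q, ← Nat.div_add_mod w Q, h1, h2]
    rwa [card_range] at this
  have htc0 : (0 : ℝ) < t.card := by exact_mod_cast card_pos.2 hte
  obtain ⟨n, hn, hcard⟩ := exists_le_card_fiber_of_nsmul_le_card_of_maps_to (M := ℝ) hf hte
    (b := (s.card : ℝ) / t.card) (by rw [nsmul_eq_mul]; field_simp; rfl)
  refine ⟨n, ?_, ?_⟩
  · rw [ht, mem_filter, mem_range] at hn
    exact hn.1.le
  · rw [div_le_iff₀ htc0] at hcard
    have h1 : (s.filter (fun x => ∑ i, (x i).val ^ 2 = n)).card ≤ (Sph D n).card := by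
      refine card_le_card_of_injOn (fun x i => ((x i).val : ℤ)) ?_ ?_
      · intro x hx
        simp only [coe_filter, Set.mem_ofPred_eq] at hx
        rw [mem_coe, mem_Sph]
        have := hx.2
        change ∑ i, (((x i).val : ℕ) : ℤ) ^ 2 = (n : ℤ)
        exact_mod_cast this
      · intro x _ y _ hxy
        funext i
        have := congrFun hxy i
        simp only [Nat.cast_inj] at this
        exact ZMod.val_injective Q this
    have h2 : ((s.filter (fun x => ∑ i, (x i).val ^ 2 = n)).card : ℝ) ≤ (Sph D n).card := by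
      exact_mod_cast h1
    have h3 : (t.card : ℝ) ≤ (D * Q : ℕ) := by exact_mod_cast htc
    calc (s.card : ℝ) ≤ _ := hcard
      _ ≤ (Sph D n).card * (D * Q : ℕ) := by
        apply mul_le_mul h2 h3 (by positivity) (by positivity)
      _ = _ := by ring

/-- In dimensions three and four there are spheres of radius `√n` with more than `K n^{(D-2)/2}`
lattice points, for every `K`. -/
theorem exists_rich (D : ℕ) (hD : D = 3 ∨ D = 4) (K : ℝ) (hK : 1 ≤ K) :
    ∃ n : ℕ, 1 ≤ n ∧ K * Real.sqrt n ^ (D - 2) ≤ (Sph D n).card := by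
  obtain ⟨P, hP, hPK⟩ := exists_primes (K * (D : ℝ) ^ D)
  obtain ⟨Q, hQ⟩ : ∃ Q, Q = ∏ p ∈ P, p := ⟨_, rfl⟩
  have hQ0 : Q ≠ 0 := by
    rw [hQ]
    exact prod_ne_zero_iff.2 (fun q hq => (hP q hq).1.ne_zero)
  have hQ1 : (1 : ℝ) ≤ Q := by exact_mod_cast Nat.one_le_iff_ne_zero.2 hQ0
  have h1 := cm_prod D hD P hP
  rw [← hQ] at h1
  obtain ⟨n, hn, h2⟩ := exists_rich_aux D hD (cls D) Q hQ0
  have hDr : (3 : ℝ) ≤ D := by rcases hD with rfl | rfl <;> norm_num
  have hD0 : (0 : ℝ) < D := by linarith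
  have hQp : (0 : ℝ) < Q := by linarith
  have h3 : (Q : ℝ) ^ (D - 1) * (K * (D : ℝ) ^ D) ≤ (D * Q : ℕ) * (Sph D n).card :=
    (mul_le_mul_of_nonneg_left hPK (by positivity)).trans (h1.trans h2)
  have hD1 : D - 1 = (D - 2) + 1 := by rcases hD with rfl | rfl <;> rfl
  have hD2 : D = (D - 2) + 2 := by rcases hD with rfl | rfl <;> rfl
  have h4 : K * ((D : ℝ) * Q) ^ (D - 2) * D ≤ (Sph D n).card := by
    push_cast at h3
    have h5 : (Q : ℝ) ^ (D - 1) * (K * (D : ℝ) ^ D) =
        (D * Q) * (K * ((D : ℝ) * Q) ^ (D - 2) * D) := by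
      rw [hD1]
      nth_rewrite 3 [hD2]
      rw [mul_pow]
      ring
    rw [h5] at h3
    exact le_of_mul_le_mul_left h3 (by positivity)
  have h6 : Real.sqrt n ≤ D * Q := by
    apply Real.sqrt_le_iff.2
    refine ⟨by positivity, ?_⟩
    have : (n : ℝ) ≤ D * (Q : ℝ) ^ 2 := by exact_mod_cast hn
    calc (n : ℝ) ≤ D * (Q : ℝ) ^ 2 := this
      _ ≤ (D * Q) ^ 2 := by
        rw [mul_pow]
        apply mul_le_mul_of_nonneg_right _ (by positivity)
        nlinarith
  refine ⟨n, ?_, ?_⟩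
  · by_contra hn0
    have hn0' : n = 0 := by omega
    subst hn0'
    have h7 : (Sph D 0).card ≤ 1 := by
      rw [card_le_one]
      intro x hx y hy
      rw [mem_Sph] at hx hy
      funext i
      have hx' := (sum_eq_zero_iff_of_nonneg (fun i _ => sq_nonneg (x i))).1 hx i (mem_univ i)
      have hy' := (sum_eq_zero_iff_of_nonneg (fun i _ => sq_nonneg (y i))).1 hy i (mem_univ i)
      rw [pow_eq_zero_iff (by norm_num)] at hx' hy'
      rw [hx', hy']
    have h8 : ((Sph D 0).card : ℝ) ≤ 1 := by exact_mod_cast h7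
    have h9 : 1 ≤ ((D : ℝ) * Q) ^ (D - 2) := one_le_pow₀ (by nlinarith)
    have h10 : 3 ≤ K * ((D : ℝ) * Q) ^ (D - 2) * D := by
      calc (3 : ℝ) = 1 * 1 * 3 := by norm_num
        _ ≤ _ := by gcongr
    linarith
  · have h7 : Real.sqrt n ^ (D - 2) ≤ ((D : ℝ) * Q) ^ (D - 2) :=
      pow_le_pow_left₀ (Real.sqrt_nonneg _) h6 _
    have h8 : 0 ≤ ((D : ℝ) * Q) ^ (D - 2) := by positivity
    calc K * Real.sqrt n ^ (D - 2) ≤ K * ((D : ℝ) * Q) ^ (D - 2) := by gcongr
      _ ≤ K * ((D : ℝ) * Q) ^ (D - 2) * D := by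
        have : 0 ≤ K * ((D : ℝ) * Q) ^ (D - 2) := by positivity
        nlinarith
      _ ≤ _ := h4

end Pool.Agent.W796.QL
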