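import Mathlib
import Pool.Agent.W796.QLCount

/-!
# Trigonometric sums with frequencies on a sphere which are small near a point
-/

set_option autoImplicit false

open Finset MeasureTheory Filter Topology

namespace Pool.Agent.W796.QL

/-! ### linear algebra -/

section lin

variable {E n : ℕ}

/-- a reduced monomial on `ℤ^{E+1}`: the exponent of the coordinate `0` is `e` -/
def mono (α : Fin E → ℕ) (e : ℕ) (k : Fin (E + 1) → ℤ) : ℂ := (k 0 : ℂ) ^ e * ∏ i, (k i.succ : ℂ) ^ α i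

/-- reduced monomials of degree at most `m` -/
def red (m : ℕ) : Set ((Fin (E + 1) → ℤ) → ℂ) :=
  {f | ∃ (α : Fin E → ℕ) (e : ℕ), e < 2 ∧ (∑ i, α i) + e ≤ m ∧ f = mono α e}

theorem red_mono {m m' : ℕ} (h : m ≤ m') : red (E := E) m ⊆ red m' := by
  rintro f ⟨α, e, he, h1, rfl⟩
  exact ⟨α, e, he, h1.trans h, rfl⟩

/-- a functional on functions on the sphere, given by coefficients -/
def pair (S : Finset (Fin (E + 1) → ℤ)) (c : (Fin (E + 1) → ℤ) → ℂ)
    (f : (Fin (E + 1) → ℤ) → ℂ) : ℂ := ∑ k ∈ S, c k * f k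

theorem mono_mul_succ (α : Fin E → ℕ) (e : ℕ) (j : Fin E) (k : Fin (E + 1) → ℤ) :
    mono α e k * (k j.succ : ℂ) = mono (Function.update α j (α j + 1)) e k := by
  unfold mono
  rw [mul_assoc]
  congr 1
  rw [← mul_prod_erase univ _ (mem_univ j), ← mul_prod_erase univ _ (mem_univ j)]
  rw [Function.update_self]
  have : ∀ i ∈ univ.erase j, (k i.succ : ℂ) ^ (Function.update α j (α j + 1) i) =
      (k i.succ : ℂ) ^ α i := by
    intro i hi
    rw [Function.update_of_ne (ne_of_mem_erase hi)]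
  rw [prod_congr rfl this]
  ring

theorem sum_update' (α : Fin E → ℕ) (j : Fin E) (b : ℕ) :
    ∑ i, Function.update α j (α j + b) i = (∑ i, α i) + b := by
  rw [← add_sum_erase univ _ (mem_univ j), ← add_sum_erase univ _ (mem_univ j),
    Function.update_self]
  have : ∀ i ∈ univ.erase j, Function.update α j (α j + b) i = α i := by
    intro i hi
    rw [Function.update_of_ne (ne_of_mem_erase hi)]
  rw [sum_congr rfl this]
  ring

/-- if a functional kills all reduced monomials of degree at most `m`, it kills all products of a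
reduced monomial and coordinates of total degree at most `m` -/
theorem kill (c : (Fin (E + 1) → ℤ) → ℂ) (m : ℕ)
    (hc : ∀ f ∈ red (E := E) m, pair (Sph (E + 1) n) c f = 0) (j : ℕ) :
    ∀ (l : ℕ) (x : Fin (E + 1) → ℝ) (f : (Fin (E + 1) → ℤ) → ℂ), f ∈ red (E := E) l → l + j ≤ m →
      pair (Sph (E + 1) n) c (fun k => f k * (∑ i, (k i : ℂ) * (x i : ℂ)) ^ j) = 0 := by
  induction j with
  | zero =>
    intro l x f hf hl
    simp only [pow_zero, mul_one]
    exact hc f (red_mono (by omega) hf)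
  | succ j ih =>
    intro l x f hf hl
    obtain ⟨α, e, he, h1, rfl⟩ := hf
    have key : ∀ i, pair (Sph (E + 1) n) c
        (fun k => (mono α e k * (k i : ℂ)) * (∑ i, (k i : ℂ) * (x i : ℂ)) ^ j) = 0 := by
      intro i
      refine Fin.cases ?_ (fun i => ?_) i
      · -- the coordinate zero
        have he' : e = 0 ∨ e = 1 := by omega
        rcases he' with rfl | rfl
        · have h2 : ∀ k : Fin (E + 1) → ℤ, mono α 0 k * (k 0 : ℂ) = mono α 1 k := by
            intro k; unfold mono; ring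
          simp only [h2]
          exact ih (l + 1) x (mono α 1) ⟨α, 1, by norm_num, by omega, rfl⟩ (by omega)
        · have h2 : ∀ k ∈ Sph (E + 1) n, mono α 1 k * (k 0 : ℂ) =
              n * mono α 0 k - ∑ i : Fin E, mono (Function.update α i (α i + 2)) 0 k := by
            intro k hk
            rw [mem_Sph, Fin.sum_univ_succ] at hk
            have hk' : (k 0 : ℂ) ^ 2 = n - ∑ i : Fin E, (k i.succ : ℂ) ^ 2 := by
              rw [eq_sub_iff_add_eq]
              exact_mod_cast congrArg (fun z : ℤ => (z : ℂ)) hk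
            have h3 : ∀ i : Fin E, mono (Function.update α i (α i + 2)) 0 k =
                mono α 0 k * (k i.succ : ℂ) ^ 2 := by
              intro i
              have := mono_mul_succ α 0 i k
              have h4 := mono_mul_succ (Function.update α i (α i + 1)) 0 i k
              rw [Function.update_self, Function.update_idem] at h4
              rw [← this] at h4
              rw [← h4]; ring
            have h5 : mono α 1 k * (k 0 : ℂ) = mono α 0 k * (k 0 : ℂ) ^ 2 := by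
              unfold mono; ring
            rw [h5, hk']
            simp only [h3]
            rw [← mul_sum]
            ring
          have h6 : pair (Sph (E + 1) n) c
              (fun k => (mono α 1 k * (k 0 : ℂ)) * (∑ i, (k i : ℂ) * (x i : ℂ)) ^ j) =
              n * pair (Sph (E + 1) n) c
                (fun k => mono α 0 k * (∑ i, (k i : ℂ) * (x i : ℂ)) ^ j) -
              ∑ i : Fin E, pair (Sph (E + 1) n) c
                (fun k => mono (Function.update α i (α i + 2)) 0 k *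
                  (∑ i, (k i : ℂ) * (x i : ℂ)) ^ j) := by
            unfold pair
            rw [sum_comm, mul_sum, ← sum_sub_distrib]
            refine sum_congr rfl (fun k hk => ?_)
            beta_reduce
            rw [h2 k hk, ← mul_sum, ← sum_mul]
            ring
          rw [h6]
          rw [ih (l + 1) x (mono α 0) ⟨α, 0, by norm_num, by omega, rfl⟩ (by omega)]
          rw [sum_eq_zero, mul_zero, sub_zero]
          intro i _
          refine ih (l + 1) x _ ⟨_, 0, by norm_num, ?_, rfl⟩ (by omega)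
          rw [sum_update']
          omega
      · simp only [mono_mul_succ]
        refine ih (l + 1) x _ ⟨_, e, he, ?_, rfl⟩ (by omega)
        rw [sum_update']
        omega
    have h7 : pair (Sph (E + 1) n) c
        (fun k => mono α e k * (∑ i, (k i : ℂ) * (x i : ℂ)) ^ (j + 1)) =
        ∑ i, (x i : ℂ) * pair (Sph (E + 1) n) c
        (fun k => (mono α e k * (k i : ℂ)) * (∑ i, (k i : ℂ) * (x i : ℂ)) ^ j) := by
      unfold pair
      simp only [mul_sum]
      rw [sum_comm]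
      refine sum_congr rfl (fun k _ => ?_)
      rw [pow_succ]
      rw [mul_sum, mul_sum, mul_sum]
      refine sum_congr rfl (fun i _ => ?_)
      ring
    rw [h7]
    exact sum_eq_zero (fun i _ => by rw [key i, mul_zero])

/-- if the sphere has more than `2 q^E` lattice points, some nonzero combination kills all powers
`(k·x)^j` with `j < q` -/
theorem exists_coeff (q : ℕ) (h : 2 * q ^ E < (Sph (E + 1) n).card) :
    ∃ c : (Fin (E + 1) → ℤ) → ℂ, (∑ k ∈ Sph (E + 1) n, ‖c k‖ ^ 2 = 1) ∧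
      ∀ j < q, ∀ x : Fin (E + 1) → ℝ,
        ∑ k ∈ Sph (E + 1) n, c k * (∑ i, (k i : ℂ) * (x i : ℂ)) ^ j = 0 := by
  classical
  obtain ⟨S, hS⟩ : ∃ S, S = Sph (E + 1) n := ⟨_, rfl⟩
  let L : (S → ℂ) →ₗ[ℂ] (((Fin E → Fin q) × Fin 2) → ℂ) :=
    { toFun := fun c p => ∑ k : S, c k * mono (fun i => (p.1 i : ℕ)) (p.2 : ℕ) k.1
      map_add' := by
        intro c c'
        funext p
        simp only [Pi.add_apply, add_mul, sum_add_distrib]
      map_smul' := by
        intro a c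
        funext p
        simp only [Pi.smul_apply, smul_eq_mul, RingHom.id_apply, mul_sum, mul_assoc] }
  have hker : LinearMap.ker L ≠ ⊥ := by
    apply LinearMap.ker_ne_bot_of_finrank_lt
    simp only [Module.finrank_fintype_fun_eq_card, Fintype.card_prod, Fintype.card_pi,
      Fintype.card_fin, prod_const, card_univ, Fintype.card_coe]
    rw [hS]; linarith
  obtain ⟨c, hc, hc0⟩ := Submodule.exists_mem_ne_zero_of_ne_bot hker
  rw [LinearMap.mem_ker] at hc
  obtain ⟨A, hA⟩ : ∃ A : ℝ, A = ∑ k : S, ‖c k‖ ^ 2 := ⟨_, rfl⟩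
  have hA0 : 0 < A := by
    rw [hA]
    obtain ⟨k, hk⟩ := Function.ne_iff.1 hc0
    refine sum_pos' (fun k _ => by positivity) ⟨k, mem_univ _, ?_⟩
    have : 0 < ‖c k‖ := norm_pos_iff.2 hk
    positivity
  refine ⟨fun k => if hk : k ∈ S then c ⟨k, hk⟩ / (Real.sqrt A : ℂ) else 0, ?_, ?_⟩
  · rw [← hS, ← sum_coe_sort]
    have h1 : ∀ k : S, ‖(if hk : (k : Fin (E + 1) → ℤ) ∈ S then c ⟨k, hk⟩ / (Real.sqrt A : ℂ) else 0)‖ ^ 2
        = ‖c k‖ ^ 2 / A := by
      intro k
      rw [dif_pos k.2, norm_div, div_pow]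
      congr 1
      rw [Complex.norm_real, Real.norm_eq_abs, sq_abs, Real.sq_sqrt hA0.le]
    rw [sum_congr rfl (fun k _ => h1 k), ← sum_div, ← hA, div_self hA0.ne']
  · intro j hj x
    have hred : ∀ f ∈ red (E := E) (q - 1), pair (Sph (E + 1) n)
        (fun k => if hk : k ∈ S then c ⟨k, hk⟩ / (Real.sqrt A : ℂ) else 0) f = 0 := by
      rintro f ⟨α, e, he, h1, rfl⟩
      have hα : ∀ i, α i < q := by
        intro i
        have := single_le_sum (f := α) (fun i _ => Nat.zero_le _) (mem_univ i)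
        omega
      have h2 := congrFun hc (fun i => ⟨α i, hα i⟩, ⟨e, he⟩)
      simp only [Pi.zero_apply] at h2
      unfold pair
      rw [← hS, ← sum_coe_sort]
      have h3 : ∀ k : S, (if hk : (k : Fin (E + 1) → ℤ) ∈ S then c ⟨k, hk⟩ / (Real.sqrt A : ℂ) else 0) *
          mono α e k = (c k * mono α e k) / (Real.sqrt A : ℂ) := by
        intro k
        rw [dif_pos k.2]
        ring
      rw [sum_congr rfl (fun k _ => h3 k), ← sum_div]
      have h4 : ∑ k : S, c k * mono α e k.1 = 0 := h2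
      rw [h4, zero_div]
    have h5 := kill (n := n) _ (q - 1) hred j 0 x (mono (fun _ => 0) 0)
      ⟨fun _ => 0, 0, by norm_num, by simp, rfl⟩ (by omega)
    unfold pair at h5
    simpa [mono] using h5

end lin

/-! ### remainder of the exponential series -/

theorem exp_tail (t : ℝ) (ht : 0 ≤ t) (n : ℕ) :
    Real.exp t - ∑ m ∈ range n, t ^ m / m.factorial ≤ (10⁻¹ : ℝ) ^ n * Real.exp (10 * t) := by
  have h1 : HasSum (fun m : ℕ => t ^ m / m.factorial) (Real.exp t) := by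
    rw [Real.exp_eq_exp_ℝ]
    exact NormedSpace.expSeries_div_hasSum_exp t
  have h2 : HasSum (fun m : ℕ => (10 * t) ^ m / m.factorial) (Real.exp (10 * t)) := by
    rw [Real.exp_eq_exp_ℝ]
    exact NormedSpace.expSeries_div_hasSum_exp (10 * t)
  have h3 := (hasSum_nat_add_iff' n).2 h1
  have h4 := (hasSum_nat_add_iff' n).2 h2
  have h5 := h4.mul_left ((10⁻¹ : ℝ) ^ n)
  have h6 := hasSum_le (fun m => ?_) h3 h5
  · refine h6.trans ?_
    apply mul_le_mul_of_nonneg_left _ (by positivity)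
    have : 0 ≤ ∑ i ∈ range n, (10 * t) ^ i / i.factorial := sum_nonneg (fun i _ => by positivity)
    linarith
  · rw [mul_pow, pow_add (10 : ℝ) m n]
    have h7 : (10⁻¹ : ℝ) ^ n * (10 ^ m * 10 ^ n * t ^ (m + n) / ((m + n).factorial : ℝ)) =
        10 ^ m * (t ^ (m + n) / ((m + n).factorial : ℝ)) := by
      have : (10⁻¹ : ℝ) ^ n * 10 ^ n = 1 := by rw [← mul_pow]; norm_num
      calc _ = ((10⁻¹ : ℝ) ^ n * 10 ^ n) * (10 ^ m * (t ^ (m + n) / ((m + n).factorial : ℝ))) := by ring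
        _ = _ := by rw [this, one_mul]
    rw [h7]
    have h8 : (1 : ℝ) ≤ 10 ^ m := one_le_pow₀ (by norm_num)
    have h9 : 0 ≤ t ^ (m + n) / ((m + n).factorial : ℝ) := by positivity
    nlinarith

theorem exp_rem (z : ℂ) (q : ℕ) (hz : 10 * ‖z‖ ≤ q) :
    ‖Complex.exp z - ∑ m ∈ range q, z ^ m / m.factorial‖ ≤ Real.exp (-q) := by
  refine (Complex.norm_exp_sub_sum_le_exp_norm_sub_sum z q).trans ((exp_tail _ (norm_nonneg _) q).trans ?_)
  have h1 : Real.exp (10 * ‖z‖) ≤ Real.exp q := Real.exp_le_exp.2 hz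
  have h2 : (10⁻¹ : ℝ) ≤ Real.exp (-2) := by
    rw [Real.exp_neg]
    apply inv_anti₀ (Real.exp_pos _)
    have := Real.exp_one_lt_d9
    have h3 : Real.exp 2 = Real.exp 1 * Real.exp 1 := by rw [← Real.exp_add]; norm_num
    rw [h3]
    nlinarith [Real.exp_pos 1]
  calc (10⁻¹ : ℝ) ^ q * Real.exp (10 * ‖z‖) ≤ (Real.exp (-2)) ^ q * Real.exp q := by gcongr
    _ = Real.exp (-q) := by
      rw [← Real.exp_nat_mul, ← Real.exp_add]; congr 1; ring

/-- the smallness of the trigonometric sum -/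
theorem small {D n : ℕ} (q : ℕ) (c : (Fin D → ℤ) → ℂ)
    (h1 : ∑ k ∈ Sph D n, ‖c k‖ ^ 2 = 1)
    (h2 : ∀ j < q, ∀ x : Fin D → ℝ, ∑ k ∈ Sph D n, c k * (∑ i, (k i : ℂ) * (x i : ℂ)) ^ j = 0)
    (x : Fin D → ℝ) (hx : 10 * (Real.sqrt n * Real.sqrt (∑ i, x i ^ 2)) ≤ q) :
    ‖∑ k ∈ Sph D n, c k * Complex.exp (Complex.I * ∑ i, (k i : ℂ) * (x i : ℂ))‖ ^ 2 ≤
      (Sph D n).card * Real.exp (-(2 * q)) := by
  have h3 : ∑ k ∈ Sph D n, c k * Complex.exp (Complex.I * ∑ i, (k i : ℂ) * (x i : ℂ)) =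
      ∑ k ∈ Sph D n, c k * (Complex.exp (Complex.I * ∑ i, (k i : ℂ) * (x i : ℂ)) -
        ∑ m ∈ range q, (Complex.I * ∑ i, (k i : ℂ) * (x i : ℂ)) ^ m / m.factorial) := by
    rw [← sub_eq_zero, ← sum_sub_distrib]
    have : ∀ k ∈ Sph D n, c k * Complex.exp (Complex.I * ∑ i, (k i : ℂ) * (x i : ℂ)) -
        c k * (Complex.exp (Complex.I * ∑ i, (k i : ℂ) * (x i : ℂ)) -
        ∑ m ∈ range q, (Complex.I * ∑ i, (k i : ℂ) * (x i : ℂ)) ^ m / m.factorial) =
        ∑ m ∈ range q, (Complex.I ^ m / m.factorial) *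
          (c k * (∑ i, (k i : ℂ) * (x i : ℂ)) ^ m) := by
      intro k _
      rw [mul_sub, sub_sub_cancel, mul_sum]
      refine sum_congr rfl (fun m _ => ?_)
      rw [mul_pow]; ring
    rw [sum_congr rfl this, sum_comm]
    refine sum_eq_zero (fun m hm => ?_)
    rw [← mul_sum, h2 m (mem_range.1 hm) x, mul_zero]
  rw [h3]
  have h4 : ∀ k ∈ Sph D n, ‖Complex.exp (Complex.I * ∑ i, (k i : ℂ) * (x i : ℂ)) -
        ∑ m ∈ range q, (Complex.I * ∑ i, (k i : ℂ) * (x i : ℂ)) ^ m / m.factorial‖ ≤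
        Real.exp (-q) := by
    intro k hk
    apply exp_rem
    rw [norm_mul, Complex.norm_I, one_mul]
    have h5 : ∑ i, (k i : ℂ) * (x i : ℂ) = ((∑ i, (k i : ℝ) * x i : ℝ) : ℂ) := by push_cast; rfl
    rw [h5, Complex.norm_real, Real.norm_eq_abs]
    have h6 : |∑ i, (k i : ℝ) * x i| ≤ Real.sqrt n * Real.sqrt (∑ i, x i ^ 2) := by
      rw [← Real.sqrt_mul (by positivity)]
      apply Real.abs_le_sqrt
      have h7 := Finset.sum_mul_sq_le_sq_mul_sq univ (fun i => (k i : ℝ)) x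
      rw [mem_Sph] at hk
      have h8 : ∑ i, (k i : ℝ) ^ 2 = n := by exact_mod_cast hk
      rw [h8] at h7
      exact h7
    linarith
  have h5 : ‖∑ k ∈ Sph D n, c k * (Complex.exp (Complex.I * ∑ i, (k i : ℂ) * (x i : ℂ)) -
        ∑ m ∈ range q, (Complex.I * ∑ i, (k i : ℂ) * (x i : ℂ)) ^ m / m.factorial)‖ ≤
        (∑ k ∈ Sph D n, ‖c k‖) * Real.exp (-q) := by
    refine (norm_sum_le _ _).trans ?_
    rw [sum_mul]
    refine sum_le_sum (fun k hk => ?_)
    rw [norm_mul]
    exact mul_le_mul_of_nonneg_left (h4 k hk) (norm_nonneg _)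
  have h6 : (∑ k ∈ Sph D n, ‖c k‖) ^ 2 ≤ (Sph D n).card := by
    have := sq_sum_le_card_mul_sum_sq (s := Sph D n) (f := fun k => ‖c k‖)
    rw [h1, mul_one] at this
    exact this
  calc _ ≤ ((∑ k ∈ Sph D n, ‖c k‖) * Real.exp (-q)) ^ 2 := by
        apply pow_le_pow_left₀ (norm_nonneg _) h5
    _ = (∑ k ∈ Sph D n, ‖c k‖) ^ 2 * Real.exp (-(2 * q)) := by
        rw [mul_pow, ← Real.exp_nat_mul]
        congr 2
        push_cast
        ring
    _ ≤ _ := by
        apply mul_le_mul_of_nonneg_right h6 (Real.exp_pos _).le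

/-! ### choice of the parameters -/

theorem params (E : ℕ) (hE : E = 2 ∨ E = 3) (c C : ℝ) (hc : 0 < c) (hC : 0 < C) :
    ∃ (n q : ℕ) (r : ℝ), 1 ≤ n ∧ 0 < r ∧ r < 1 ∧ 2 * q ^ E < (Sph (E + 1) n).card ∧
      10 * (Real.sqrt n * r) ≤ q ∧
      ((Sph (E + 1) n).card : ℝ) * Real.exp (-(2 * q)) < c * Real.exp (-(C * r⁻¹ ^ (E - 1))) := by
  -- threshold for q
  have hlim : Tendsto (fun q : ℕ => 2 * ((q : ℝ) + 1) ^ E * Real.exp (-(q : ℝ))) atTop (𝓝 0) := by
    have h1 := (Real.tendsto_pow_mul_exp_neg_atTop_nhds_zero E).comp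
      (tendsto_natCast_atTop_atTop (R := ℝ) |>.atTop_add tendsto_const_nhds (C := (1 : ℝ)))
    have h2 := h1.const_mul (2 * Real.exp 1)
    rw [mul_zero] at h2
    refine h2.congr (fun q => ?_)
    simp only [Function.comp]
    have : Real.exp (-(q : ℝ)) = Real.exp 1 * Real.exp (-((q : ℝ) + 1)) := by
      rw [← Real.exp_add]; congr 1; ring
    rw [this]; ring
  have hev := (hlim.eventually_lt_const hc)
  obtain ⟨q0, hq0⟩ := eventually_atTop.1 hev
  obtain ⟨q1, hq1⟩ := exists_nat_ge (C * 2 ^ (E - 1))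
  obtain ⟨q2, hq2⟩ : ∃ q2, q2 = max 1 (max q0 q1) := ⟨_, rfl⟩
  obtain ⟨K, hK⟩ : ∃ K : ℝ, K = 2 * ((q2 : ℝ) + 1) ^ E + C * 10 ^ (E - 1) * 2 ^ (E + 1) + 1 := ⟨_, rfl⟩
  have hK1 : 1 ≤ K := by
    rw [hK]
    have : 0 ≤ 2 * ((q2 : ℝ) + 1) ^ E + C * 10 ^ (E - 1) * 2 ^ (E + 1) := by positivity
    linarith
  obtain ⟨n, hn, hrich⟩ := exists_rich (E + 1) (by omega) K hK1
  have hE1 : E + 1 - 2 = E - 1 := by omega
  rw [hE1] at hrich
  obtain ⟨N, hN⟩ : ∃ N, N = (Sph (E + 1) n).card := ⟨_, rfl⟩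
  rw [← hN] at hrich
  have hR1 : 1 ≤ Real.sqrt n := by
    rw [Real.one_le_sqrt]; exact_mod_cast hn
  have hRp : 1 ≤ Real.sqrt n ^ (E - 1) := one_le_pow₀ hR1
  have hNK : K ≤ N := by nlinarith
  have hex : ∃ q : ℕ, N ≤ 2 * (q + 1) ^ E := by
    refine ⟨N, ?_⟩
    have : N + 1 ≤ (N + 1) ^ E := Nat.le_self_pow (by omega) _
    omega
  classical
  obtain ⟨q, hq⟩ : ∃ q, q = Nat.find hex := ⟨_, rfl⟩
  have hqs : N ≤ 2 * (q + 1) ^ E := by rw [hq]; exact Nat.find_spec hex
  have hqr : (N : ℝ) ≤ 2 * ((q : ℝ) + 1) ^ E := by exact_mod_cast hqs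
  have hq2' : q2 < q := by
    by_contra h
    have h1 : (q : ℝ) ≤ q2 := by exact_mod_cast not_lt.1 h
    have h2 : ((q : ℝ) + 1) ^ E ≤ ((q2 : ℝ) + 1) ^ E := by gcongr
    have h3 : 0 < C * 10 ^ (E - 1) * 2 ^ (E + 1) := by positivity
    rw [hK] at hNK
    linarith
  have hq1' : 1 ≤ q := by omega
  have hqlt : 2 * q ^ E < N := by
    have h1 : ¬ (N ≤ 2 * ((q - 1) + 1) ^ E) := by
      apply Nat.find_min hex
      rw [← hq]; omega
    rw [Nat.sub_add_cancel hq1'] at h1
    omega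
  have hqpos : (0 : ℝ) < q := by exact_mod_cast hq1'
  have hq1r : (1 : ℝ) ≤ q := by exact_mod_cast hq1'
  have hfin : (N : ℝ) * Real.exp (-(2 * q)) < c * Real.exp (-(q : ℝ)) := by
    have h1 := hq0 q (by omega)
    calc (N : ℝ) * Real.exp (-(2 * q)) = (N * Real.exp (-(q : ℝ))) * Real.exp (-(q : ℝ)) := by
          rw [mul_assoc, ← Real.exp_add]; congr 2; ring
      _ ≤ (2 * ((q : ℝ) + 1) ^ E * Real.exp (-(q : ℝ))) * Real.exp (-(q : ℝ)) := by gcongr
      _ < _ := by
        apply mul_lt_mul_of_pos_right h1 (Real.exp_pos _)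
  have hRpos : 0 < Real.sqrt n := by linarith
  obtain ⟨r, hr⟩ : ∃ r, r = min ((q : ℝ) / (10 * Real.sqrt n)) (1 / 2) := ⟨_, rfl⟩
  have hr0 : 0 < r := by rw [hr]; exact lt_min (by positivity) (by norm_num)
  refine ⟨n, q, r, hn, hr0, ?_, hN ▸ hqlt, ?_, ?_⟩
  · rw [hr]; exact lt_of_le_of_lt (min_le_right _ _) (by norm_num)
  · have h1 : r ≤ (q : ℝ) / (10 * Real.sqrt n) := by rw [hr]; exact min_le_left _ _
    rw [le_div_iff₀ (by positivity)] at h1
    linarith
  · rw [← hN]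
    refine lt_of_lt_of_le hfin ?_
    apply mul_le_mul_of_nonneg_left _ hc.le
    rw [Real.exp_le_exp, neg_le_neg_iff]
    rcases min_choice ((q : ℝ) / (10 * Real.sqrt n)) (1 / 2) with h | h
    · rw [hr, h, inv_div]
      -- (10 R / q)^(E-1) ≤ ...
      have h1 : K * Real.sqrt n ^ (E - 1) ≤ 2 * ((q : ℝ) + 1) ^ E := hrich.trans hqr
      have h2 : ((q : ℝ) + 1) ^ E ≤ (2 * q) ^ E := by gcongr; linarith
      have h3 : C * 10 ^ (E - 1) * 2 ^ (E + 1) * Real.sqrt n ^ (E - 1) ≤ 2 ^ (E + 1) * (q : ℝ) ^ E := by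
        calc C * 10 ^ (E - 1) * 2 ^ (E + 1) * Real.sqrt n ^ (E - 1)
            ≤ K * Real.sqrt n ^ (E - 1) := by
              apply mul_le_mul_of_nonneg_right _ (by positivity)
              rw [hK]
              have : 0 ≤ 2 * ((q2 : ℝ) + 1) ^ E := by positivity
              linarith
          _ ≤ 2 * ((q : ℝ) + 1) ^ E := h1
          _ ≤ 2 * (2 * q) ^ E := by linarith
          _ = _ := by rw [mul_pow]; ring
      have h4 : C * 10 ^ (E - 1) * Real.sqrt n ^ (E - 1) ≤ (q : ℝ) ^ E := by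
        have h5 : (0 : ℝ) < 2 ^ (E + 1) := by positivity
        have h6 : 2 ^ (E + 1) * (C * 10 ^ (E - 1) * Real.sqrt n ^ (E - 1)) ≤ 2 ^ (E + 1) * (q : ℝ) ^ E := by
          calc _ = C * 10 ^ (E - 1) * 2 ^ (E + 1) * Real.sqrt n ^ (E - 1) := by ring
            _ ≤ _ := h3
        exact le_of_mul_le_mul_left h6 h5
      rw [div_pow, mul_pow, ← mul_div_assoc, div_le_iff₀ (by positivity)]
      have h7 : (q : ℝ) * q ^ (E - 1) = q ^ E := by
        rw [← pow_succ']; congr 1; omega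
      rw [h7]
      linarith
    · rw [hr, h]
      have h1 : ((1 / 2 : ℝ))⁻¹ = 2 := by norm_num
      rw [h1]
      refine hq1.trans ?_
      have : q1 ≤ q := by omega
      exact_mod_cast this

end Pool.Agent.W796.QL
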